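import Pool.Agent.Lib.MP_bb37eb_nt.Core.Alpha
import Pool.Agent.Lib.MP_bb37eb_nt.Core.HasClass
import Pool.Agent.Lib.MP_bb37eb_nt.Core.Places

/-! SPINE: the main statements of the modules, for reference. NOT to be imported; each module
proves its statements under the same names without the suffix. -/

namespace BB37.Spine

open scoped TensorProduct
open BB37

/-! ### Module BR -/

section BR

variable (K : Type) [Field K] [CharZero K]

theorem BR_exists_class (A : Type) [Ring A] [Algebra K A] [Algebra.IsCentral K A]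
    [IsSimpleRing A] [FiniteDimensional K A] : ∃ c : Z2 K, HasClass K A c := sorry

theorem BR_exists_csa (c : Z2 K) : ∃ A : CSA.{0, 0} K, HasClass K A c := sorry

theorem BR_equiv_iff (A B : CSA.{0, 0} K) (c d : Z2 K) (hA : HasClass K A c)
    (hB : HasClass K B d) : IsBrauerEquivalent A B ↔ cls c = cls d := sorry

theorem BR_split_iff (A : CSA.{0, 0} K) (c : Z2 K) (hA : HasClass K A c) :
    cls c = 1 ↔ ∃ n : ℕ, n ≠ 0 ∧ Nonempty (A ≃ₐ[K] Matrix (Fin n) (Fin n) K) := sorry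

theorem BR_baseChange (K' : Type) [Field K'] [CharZero K'] [Algebra K K'] (A : CSA.{0, 0} K)
    (c : Z2 K) (hA : HasClass K A c) : HasClass K' (K' ⊗[K] A) (resZ K K' c) := sorry

theorem BR_baseChange_csa (K' : Type) [Field K'] [CharZero K'] [Algebra K K']
    (A : CSA.{0, 0} K) : Algebra.IsCentral K' (K' ⊗[K] A) ∧ IsSimpleRing (K' ⊗[K] A) ∧
      FiniteDimensional K' (K' ⊗[K] A) := sorry

/-- fibre of an Azumaya algebra at a field-valued point -/
theorem BR_fibre_csa (R : Type) [CommRing R] [Algebra R K] (A : Type) [Ring A] [Algebra R A]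
    [IsAzumaya R A] : Algebra.IsCentral K (K ⊗[R] A) ∧ IsSimpleRing (K ⊗[R] A) ∧
      FiniteDimensional K (K ⊗[R] A) := sorry

/-- C5: twisted forms over a Galois extension of rings. `S/R` is `Γ`-Galois. -/
theorem BR_galois (R S Γ : Type) [CommRing R] [CommRing S] [Algebra R S] [Group Γ] [Fintype Γ]
    [DecidableEq Γ] [MulSemiringAction Γ S] [SMulCommClass Γ R S]
    (hinj : Function.Injective (algebraMap R S))
    (hinv : ∀ s : S, (∀ γ : Γ, γ • s = s) → ∃ r, algebraMap R S r = s)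
    (hcoord : ∃ (n : ℕ) (x y : Fin n → S), ∀ γ : Γ, ∑ i, x i * γ • y i = if γ = 1 then 1 else 0)
    (c : Γ → Γ → Sˣ)
    (hc : ∀ a b d : Γ, (c (a * b) d : S) * c a b = a • (c b d : S) * c a (b * d)) :
    ∃ (A : Type) (_ : Ring A) (_ : Algebra R A), IsAzumaya R A ∧
      ∀ (K : Type) [Field K] [CharZero K] [Algebra R K] (s : S →+* Kb K)
        (hs : ∀ r, s (algebraMap R S r) = algebraMap K (Kb K) (algebraMap R K r))
        (γ : GK K →* Γ) (hγ : ∀ g x, g (s x) = s (γ g • x)) (c' : Z2 K)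
        (hc' : ∀ g h, (c'.1 (g, h) : Kb K) = s (c (γ g) (γ h))),
        HasClass K (K ⊗[R] A) c' := sorry

end BR

/-! ### Module L2 -/

theorem L2_two_torsion (x : H2 ℚ_[2]) (hx : x * x = 1) : x = 1 ∨ IsQuat (-1 : ℚ_[2]) (-1) x := sorry

theorem L2_ne_one (x : H2 ℚ_[2]) (hx : IsQuat (-1 : ℚ_[2]) (-1) x) : x ≠ 1 := sorry

/-! ### Module Z -/

theorem Z_division (D : Type) [DivisionRing D] [Algebra ℚ D] [Algebra.IsCentral ℚ D]
    [FiniteDimensional ℚ D] (n : ℕ) (hn : 0 < n)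
    (h : ∀ p : Nat.Primes, Nonempty (ℚ_[(p : ℕ)] ⊗[ℚ] D ≃ₐ[ℚ_[(p : ℕ)]]
      Matrix (Fin n) (Fin n) ℚ_[(p : ℕ)])) : n = 1 := sorry

/-- from `Z_division` and module BR -/
theorem Z_H2 (x : H2 ℚ) (h : ∀ p : Nat.Primes, res ℚ ℚ_[(p : ℕ)] x = 1) : x = 1 := sorry

/-! ### Module ODD -/

/-- `theta 0 = 0`, `theta (k+1)^2 = 2 + theta k` in the algebraic closure of the rationals -/
def IsTheta (θ : ℕ → Kb ℚ) : Prop := θ 0 = 0 ∧ ∀ k, θ (k + 1) ^ 2 = 2 + θ k

/-- the classes of `H2 K` which are split by `K(theta k)` for some `k` -/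
def InU (K : Type) [Field K] [Algebra ℚ K] (x : H2 K) : Prop :=
  ∃ (c : Z2 K) (k : ℕ) (θ : ℕ → Kb ℚ) (u : GK K → (Kb K)ˣ), cls c = x ∧ IsTheta θ ∧
    Smooth1 K u ∧ ∀ g h : GK K, g (emb ℚ K (θ k)) = emb ℚ K (θ k) →
      h (emb ℚ K (θ k)) = emb ℚ K (θ k) → c.1 (g, h) = g • u h * u g / u (g * h)

/-- admissible families -/
structure Adm (b : ∀ v : Place, H2 (Kv v)) : Prop where
  fin : {v | b v ≠ 1}.Finite
  odd : ∀ p : Nat.Primes, p ≠ two → InU (Kv (some p)) (b (some p))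
  at2 : ∃ m : ℕ, b (some two) ^ 2 ^ m = 1

/-- a family is global -/
def Glob (b : ∀ v : Place, H2 (Kv v)) : Prop := ∃ γ : H2 ℚ, ∀ v, res ℚ (Kv v) γ = b v

open Classical in
/-- The invariant map. `inv b` lies in `H2 ℚ_2`; its kernel consists of the global families, and
the local 2-torsion is one-dimensional with nonzero invariant. -/
theorem ODD_inv : ∃ (Inv : (∀ v : Place, H2 (Kv v)) → H2 (Kv (some two)))
    (h : ∀ v : Place, H2 (Kv v)),
    (∀ b b', Adm b → Adm b' → Inv (b * b') = Inv b * Inv b') ∧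
    (∀ b, Adm b → (Inv b = 1 ↔ Glob b)) ∧
    (∀ v, h v ≠ 1 ∧ h v * h v = 1 ∧ Adm (Function.update 1 v (h v)) ∧
      Inv (Function.update 1 v (h v)) = h (some two)) ∧
    (∀ v x, Adm (Function.update 1 v x) → x * x = 1 → x = 1 ∨ x = h v) ∧
    (∀ x : H2 (Kv (some two)), x * x = 1 → x = 1 ∨ x = h (some two)) := sorry

/-- admissible families form a group -/
theorem ODD_adm_mul (b b' : ∀ v : Place, H2 (Kv v)) (h : Adm b) (h' : Adm b') : Adm (b * b') :=
  sorry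

/-- odd primes: square roots of elements of even valuation are unramified -/
theorem ODD_sqrt (p : Nat.Primes) (hp : p ≠ two) (θ : ℕ → Kb ℚ) (hθ : IsTheta θ) (k : ℕ)
    (r : Kb ℚ_[(p : ℕ)]) (hr : ∀ g : GK ℚ_[(p : ℕ)],
      g (emb ℚ _ (θ k)) = emb ℚ _ (θ k) → g (r ^ 2) = r ^ 2)
    (heven : ∃ s u : Kb ℚ_[(p : ℕ)], r ^ 2 = s ^ 2 * u ∧ IsIntegral ℤ_[(p : ℕ)] u ∧
      IsIntegral ℤ_[(p : ℕ)] u⁻¹ ∧ ∀ g : GK ℚ_[(p : ℕ)],
      g (emb ℚ _ (θ k)) = emb ℚ _ (θ k) → g s = s) :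
    ∃ k', ∀ g : GK ℚ_[(p : ℕ)], g (emb ℚ _ (θ k')) = emb ℚ _ (θ k') → g r = r := sorry

/-- a cocycle with values in roots of unity which is trivial unless both arguments move
`theta k` has trivial class (odd primes): unramified cup products vanish -/
theorem ODD_unramified (p : Nat.Primes) (hp : p ≠ two) (θ : ℕ → Kb ℚ) (hθ : IsTheta θ) (k : ℕ)
    (c : Z2 ℚ_[(p : ℕ)]) (N : ℕ) (hN : 0 < N) (hroot : ∀ q, c.1 q ^ N = 1)
    (hinf : ∀ g g' h h' : GK ℚ_[(p : ℕ)], g (emb ℚ _ (θ k)) = g' (emb ℚ _ (θ k)) →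
      h (emb ℚ _ (θ k)) = h' (emb ℚ _ (θ k)) → c.1 (g, h) = c.1 (g', h')) :
    cls c = 1 := sorry

/-! ### Module EC -/

section EC

variable (b b' : ℚ) (hb : b ≠ 0) (hb' : b' = -4 * b) (K : Type) [Field K] [Algebra ℚ K]

include hb hb'

theorem EC_iso_add (P Q : Pt b K) : isoF b b' (P + Q) = isoF b b' P + isoF b b' Q := sorry

theorem EC_iso_ker (P : Pt b K) : isoF b b' P = 0 ↔ P = 0 ∨ P = T b := sorry

theorem EC_iso_natural (K' : Type) [Field K'] [Algebra ℚ K'] (f : K →ₐ[ℚ] K') (P : Pt b K) :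
    isoF b b' (mapF b f P) = mapF b' f (isoF b b' P) := sorry

theorem EC_iso_lift (Q : Pt b' K) (hQ : xc b' Q ≠ 0) (z : K) (hz : z ^ 2 = xc b' Q) :
    ∃ P : Pt b K, isoF b b' P = Q ∧ xc b P = (xc b' Q + yc b' Q / z) / 2 := sorry

theorem EC_iso_surj (K : Type) [Field K] [Algebra ℚ K] [IsAlgClosed K] (Q : Pt b' K) :
    ∃ P : Pt b K, isoF b b' P = Q := sorry

end EC

/-- kernel points are algebraic -/
theorem EC_ker_algebraic (b : ℕ → ℚ) (hb0 : b 0 ≠ 0) (hb : ∀ d, b (d + 1) = -4 * b d) (d : ℕ)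
    (K : Type) [Field K] [Algebra ℚ K] (P : Pt (b 0) (Kb K)) (hP : downF b (Kb K) d P = 0) :
    ∃ P₀ : Pt (b 0) (Kb ℚ), downF b (Kb ℚ) d P₀ = 0 ∧ mapF (b 0) (emb ℚ K) P₀ = P := sorry

/-- the Azumaya algebra of `xi` on the affine curve. The coordinate ring is Mathlib's. -/
theorem EC_azumaya (b : ℕ → ℚ) (hb0 : b 0 ≠ 0) (hb : ∀ d, b (d + 1) = -4 * b d) (d : ℕ)
    (ξ : Xi b d) : ∃ (A : Type) (_ : Ring A) (_ : Algebra (Wq (b d)).toAffine.CoordinateRing A),
    IsAzumaya (Wq (b d)).toAffine.CoordinateRing A ∧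
    ∀ (K : Type) [Field K] [CharZero K] (θ : (Wq (b d)).toAffine.CoordinateRing →+* K) (x y : K)
      (_ : θ (WeierstrassCurve.Affine.CoordinateRing.mk _ (Polynomial.C Polynomial.X)) = x)
      (_ : θ (WeierstrassCurve.Affine.CoordinateRing.mk _ Polynomial.X) = y)
      (c : Z2 K) (_ : IsAlpha ξ K (mk (b d) x y) c),
      letI := θ.toAlgebra
      HasClass K (K ⊗[(Wq (b d)).toAffine.CoordinateRing] A) c := sorry

/-! ### Module DE -/

/-- existence of the class of `xi` at every point -/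
theorem DE_exists (b : ℕ → ℚ) (hb0 : b 0 ≠ 0) (hb : ∀ d, b (d + 1) = -4 * b d) (d : ℕ)
    (ξ : Xi b d) (K : Type) [Field K] [Algebra ℚ K] (e : Pt (b d) K) :
    ∃ c : Z2 K, IsAlpha ξ K e c := sorry

/-- the class of `xi` is additive in the point (with `e = e' = 0`: it vanishes at `0`) -/
theorem DE_add (b : ℕ → ℚ) (hb0 : b 0 ≠ 0) (hb : ∀ d, b (d + 1) = -4 * b d) (d : ℕ)
    (ξ : Xi b d) (K : Type) [Field K] [Algebra ℚ K] (e e' : Pt (b d) K) (c c' c'' : Z2 K)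
    (h : IsAlpha ξ K e c) (h' : IsAlpha ξ K e' c') (h'' : IsAlpha ξ K (e + e') c'') :
    cls c'' = cls c * cls c' := sorry

/-- the descent -/
theorem DE_main (n : ℕ) (b : ℕ → ℚ) (hb : ∀ d, b (d + 1) = -4 * b d) (hbn : b n = 1)
    (e : ∀ v : Place, Pt (b n) (Kv v))
    (h : ∀ ξ : Xi b n, ∃ γ : H2 ℚ, ∀ v, ∃ c, IsAlpha ξ (Kv v) (e v) c ∧
      cls c = res ℚ (Kv v) γ) :
    ∃ f : Pt (b 0) (Kv (some two)), e (some two) = downF b _ n f ∨
      e (some two) = T (b n) + downF b _ n f := sorry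

/-! ### Module P -/

/-- an evaluation system on the affine line over `K`: classes at all points, Zariski-locally given
by Azumaya algebras -/
structure LineClass (K : Type) [Field K] where
  ev : ∀ (K' : Type) [Field K'] [CharZero K'] [Algebra K K'], K' → BrauerGroup.{0, 0} K'
  loc : ∀ 𝔭 : Ideal (Polynomial K), 𝔭.IsPrime → ∃ (h : Polynomial K) (_ : h ∉ 𝔭) (A : Type)
    (_ : Ring A) (_ : Algebra (Localization.Away h) A), IsAzumaya (Localization.Away h) A ∧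
    ∀ (K' : Type) [Field K'] [CharZero K'] [Algebra K K'] (t : K')
      (θ : Localization.Away h →+* K')
      (_ : ∀ f : Polynomial K, θ (algebraMap _ _ f) = Polynomial.aeval t f),
      letI := θ.toAlgebra
      ∃ B : CSA.{0, 0} K', ev K' t = Quotient.mk (Brauer.CSA_Setoid K') B ∧
        Nonempty (K' ⊗[Localization.Away h] A ≃ₐ[K'] B)

theorem P_const (K : Type) [Field K] [CharZero K] (α : LineClass K) (a b : K) :
    α.ev K a = α.ev K b := sorry

end BB37.Spine
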